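import Pool.Agent.Helper34.SQ.GoalsM

/-!
Project SQ (MP_bb32d1_al), packet COMB: the character of `Z(μ)`.
-/

set_option autoImplicit false
set_option linter.unusedSectionVars false

namespace Pool.Agent.Helper57.SQ

noncomputable section

open Finset Pool.Agent.Helper19.SQ Pool.Agent.Helper34.SQ

section

variable {G : Type} [AddCommGroup G] {P : Type} [DecidableEq P]

theorem prod_single (s : Finset P) (β : P → G) (c : P → ℤ) :
    ∏ p ∈ s, (AddMonoidAlgebra.single (β p) (c p) : AddMonoidAlgebra ℤ G)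
      = AddMonoidAlgebra.single (∑ p ∈ s, β p) (∏ p ∈ s, c p) := by
  induction s using Finset.induction_on with
  | empty => simp [AddMonoidAlgebra.one_def]
  | insert p s hp ih =>
    rw [prod_insert hp, sum_insert hp, prod_insert hp, ih, AddMonoidAlgebra.single_mul_single]

theorem prod_one_sub_single (s : Finset P) (β : P → G) :
    ∏ p ∈ s, (1 - AddMonoidAlgebra.single (β p) (1 : ℤ) : AddMonoidAlgebra ℤ G)
      = ∑ S ∈ s.powerset, AddMonoidAlgebra.single (∑ p ∈ S, β p) ((-1 : ℤ) ^ S.card) := by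
  have h1 : ∀ p ∈ s, (1 - AddMonoidAlgebra.single (β p) (1 : ℤ) : AddMonoidAlgebra ℤ G)
      = AddMonoidAlgebra.single (β p) (-1 : ℤ) + 1 := by
    intro p _
    rw [AddMonoidAlgebra.single_neg]
    ring
  rw [prod_congr rfl h1, prod_add]
  refine sum_congr rfl fun S _ => ?_
  rw [prod_single, prod_const_one, mul_one, prod_const]

theorem geom_single (g : G) (l : ℕ) :
    (1 - AddMonoidAlgebra.single g (1 : ℤ) : AddMonoidAlgebra ℤ G) *
      ∑ c ∈ range l, AddMonoidAlgebra.single (c • g) (1 : ℤ)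
      = 1 - AddMonoidAlgebra.single (l • g) (1 : ℤ) := by
  have h1 : ∀ c : ℕ, (AddMonoidAlgebra.single (c • g) (1 : ℤ) : AddMonoidAlgebra ℤ G)
      = (AddMonoidAlgebra.single g (1 : ℤ)) ^ c := by
    intro c
    rw [AddMonoidAlgebra.single_pow, one_pow]
  simp only [h1]
  exact mul_neg_geom_sum _ _

theorem coeff_sum_single {X : Type} (s : Finset X) (g : X → G) (c : X → ℤ) (ν : G)
    [DecidableEq G] :
    (∑ x ∈ s, (AddMonoidAlgebra.single (g x) (c x) : AddMonoidAlgebra ℤ G)).coeff ν
      = ∑ x ∈ s, if g x = ν then c x else 0 := by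
  induction s using Finset.cons_induction_on with
  | empty => simp
  | cons a s ha ih =>
    rw [sum_cons, sum_cons, AddMonoidAlgebra.coeff_add, Finsupp.add_apply, ih]
    congr 1
    rw [AddMonoidAlgebra.coeff_single, Finsupp.single_apply]

end

/-- the root of a pair -/
def rt (N : ℕ) (p : Fin (N + 1) × Fin (N + 1)) : Fin (N + 1) → ℤ :=
  Pi.single p.1 1 - Pi.single p.2 1

theorem wtE_eq (N l : ℕ) (a : EX N l) :
    wtE N a.1 = ∑ p ∈ phiP N, a.1 p.1 p.2 • rt N p := by
  funext k
  have hz : ∀ p : Fin (N + 1) × Fin (N + 1), p ∉ phiP N → a.1 p.1 p.2 • rt N p = 0 := by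
    intro p hp
    have : a.1 p.1 p.2 = 0 := by
      apply (a.2 _ _).2
      intro h
      apply hp
      rw [phiP, mem_filter]
      exact ⟨mem_univ _, h.1⟩
    rw [this, zero_smul]
  rw [sum_subset (subset_univ (phiP N)) (fun p _ hp => hz p hp), Finset.sum_apply]
  simp only [wtE]
  rw [Fintype.sum_prod_type]
  have h1 : ∀ i j : Fin (N + 1), (a.1 i j • rt N (i, j)) k
      = (if i = k then (a.1 k j : ℤ) else 0) - (if j = k then (a.1 i k : ℤ) else 0) := by
    intro i j
    simp only [rt, Pi.smul_apply, Pi.sub_apply, Pi.single_apply, nsmul_eq_mul]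
    by_cases h1 : i = k
    · by_cases h2 : j = k
      · subst h1; subst h2; simp
      · have h2' : k ≠ j := fun h => h2 h.symm
        subst h1; simp [h2, h2']
    · have h1' : k ≠ i := fun h => h1 h.symm
      by_cases h2 : j = k
      · subst h2; simp [h1, h1']
      · have h2' : k ≠ j := fun h => h2 h.symm
        simp [h1, h1', h2, h2']
  simp only [h1, sum_sub_distrib]
  congr 1
  · rw [sum_comm]
    simp only [sum_ite_eq', mem_univ, if_true]
    rw [Finset.sum_range]
  · simp only [sum_ite_eq', mem_univ, if_true]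
    rw [Finset.sum_range]

/-- the exponent with given values on the positive roots -/
def exOf (N l : ℕ) (g : ∀ p ∈ phiP N, ℕ) (hg : ∀ p hp, g p hp < l) : EX N l :=
  ⟨fun i j => if h : i < j ∧ j ≤ N then
      g (⟨i, by omega⟩, ⟨j, by omega⟩) (by
        rw [phiP, mem_filter]; exact ⟨mem_univ _, h.1⟩) else 0, by
    intro i j
    constructor
    · intro h
      simp only [dif_pos h]
      exact hg _ _
    · intro h
      simp only [dif_neg h]⟩

theorem sum_EX (N l : ℕ) :
    ∑ a : EX N l, (AddMonoidAlgebra.single (wtE N a.1) (1 : ℤ) : AddMonoidAlgebra ℤ (Fin (N + 1) → ℤ))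
      = ∏ p ∈ phiP N, ∑ c ∈ range l, AddMonoidAlgebra.single (c • rt N p) (1 : ℤ) := by
  classical
  rw [Finset.prod_sum]
  symm
  refine sum_bij' (fun g hg => exOf N l g (fun p hp => by
      have := Finset.mem_pi.1 hg p hp
      exact mem_range.1 this)) (fun a _ => fun p _ => a.1 p.1 p.2) ?_ ?_ ?_ ?_ ?_
  · intro g hg
    exact mem_univ _
  · intro a _
    rw [Finset.mem_pi]
    intro p hp
    rw [mem_range]
    rw [phiP, mem_filter] at hp
    exact (a.2 _ _).1 ⟨hp.2, Nat.lt_succ_iff.1 p.2.isLt⟩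
  · intro g hg
    funext p hp
    have hp' := hp
    rw [phiP, mem_filter] at hp'
    have h : (p.1 : ℕ) < p.2 ∧ (p.2 : ℕ) ≤ N := ⟨hp'.2, Nat.lt_succ_iff.1 p.2.isLt⟩
    simp only [exOf, dif_pos h]
  · intro a _
    apply Subtype.ext
    funext i j
    simp only [exOf]
    by_cases h : i < j ∧ j ≤ N
    · rw [dif_pos h]
    · rw [dif_neg h, (a.2 i j).2 h]
  · intro g hg
    rw [wtE_eq]
    have h2 := prod_single (phiP N).attach (fun p => g p.1 p.2 • rt N p.1) (fun _ => (1 : ℤ))
    rw [prod_const_one] at h2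
    rw [h2]
    congr 1
    rw [← sum_attach (phiP N)]
    refine sum_congr rfl fun p _ => ?_
    congr 1
    have hp' : p.1 ∈ phiP N := p.2
    have hp2 := (mem_filter.1 hp').2
    have h : (p.1.1 : ℕ) < p.1.2 ∧ (p.1.2 : ℕ) ≤ N := ⟨hp2, Nat.lt_succ_iff.1 p.1.2.isLt⟩
    simp only [exOf, dif_pos h]

theorem t_comb : S_COMB := by
  classical
  intro N l ν hl hne p
  -- the product
  have hprod : (∑ S ∈ (phiP N).powerset,
        (AddMonoidAlgebra.single (∑ p ∈ S, rt N p) ((-1 : ℤ) ^ S.card) :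
          AddMonoidAlgebra ℤ (Fin (N + 1) → ℤ)))
      * ∑ a : EX N l, AddMonoidAlgebra.single (wtE N a.1) (1 : ℤ)
      = ∑ S ∈ (phiP N).powerset,
        AddMonoidAlgebra.single (∑ p ∈ S, l • rt N p) ((-1 : ℤ) ^ S.card) := by
    rw [← prod_one_sub_single, sum_EX, ← prod_mul_distrib, ← prod_one_sub_single]
    exact prod_congr rfl fun p _ => geom_single _ _
  have hl1 : ((∑ S ∈ (phiP N).powerset,
        (AddMonoidAlgebra.single (∑ p ∈ S, rt N p) ((-1 : ℤ) ^ S.card) :
          AddMonoidAlgebra ℤ (Fin (N + 1) → ℤ)))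
      * ∑ a : EX N l, AddMonoidAlgebra.single (wtE N a.1) (1 : ℤ)).coeff ν
      = ∑ S ∈ (phiP N).powerset, (-1 : ℤ) ^ S.card * #{a : EX N l | wtE N a.1 + sumP S = ν} := by
    rw [sum_mul_sum]
    simp only [AddMonoidAlgebra.single_mul_single, mul_one]
    rw [← sum_product', coeff_sum_single, sum_product]
    refine sum_congr rfl fun S _ => ?_
    rw [← sum_filter]
    simp only
    rw [sum_const, nsmul_eq_mul, mul_comm]
    congr 3
    ext a
    simp only [mem_filter, mem_univ, true_and]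
    have e : (∑ p ∈ S, rt N p) + wtE N a.1 = wtE N a.1 + sumP S := add_comm _ _
    rw [e]
  rw [← hl1, hprod, coeff_sum_single] at hne
  obtain ⟨S, hS, hS2⟩ := exists_ne_zero_of_sum_ne_zero hne
  have hS3 : ∑ p ∈ S, l • rt N p = ν := by
    by_contra h
    exact hS2 (if_neg h)
  rw [← hS3, ← smul_sum, Pi.smul_apply, nsmul_eq_mul]
  exact Dvd.intro _ rfl

end

end Pool.Agent.Helper57.SQ
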