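import Pool.Agent.Helper34.SQ.GoalsT0

/-!
Project SQ (MP_bb32d1_al), packet CORE0: facts about `Core0`.
-/

set_option autoImplicit false

namespace Pool.Agent.Helper57.SQ

noncomputable section

open Matrix Pool.Agent.Helper19.SQ Pool.Agent.Helper34.SQ

section

variable {A : Type} [Ring A] [Algebra ℂ A] {ι : Type} [Fintype ι] [DecidableEq ι]

theorem X1_comm_D1 (C : Core0 A ι) (a : A) :
    X1 C.X * D1 C.δ C.ε a = D1 C.δ C.ε a * X1 C.X := by
  ext x y
  have h := congrFun (congrFun (C.Xδ (C.ε a x.1 y.1)) x.2) y.2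
  rw [Matrix.mul_apply, Matrix.mul_apply] at h
  rw [Matrix.mul_apply, Matrix.mul_apply, Fintype.sum_prod_type, Fintype.sum_prod_type]
  have e1 : ∑ i, ∑ k, X1 C.X x (i, k) * D1 C.δ C.ε a (i, k) y
      = ∑ k, C.X x.2 k * C.δ (C.ε a x.1 y.1) k y.2 := by
    rw [Finset.sum_eq_single x.1]
    · simp [X1, D1]
    · intro b _ hb
      simp [X1, Ne.symm hb]
    · intro h; exact absurd (Finset.mem_univ _) h
  have e2 : ∑ i, ∑ k, D1 C.δ C.ε a x (i, k) * X1 C.X (i, k) y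
      = ∑ k, C.δ (C.ε a x.1 y.1) x.2 k * C.X k y.2 := by
    rw [Finset.sum_eq_single y.1]
    · simp [X1, D1]
    · intro b _ hb
      simp [X1, hb]
    · intro h; exact absurd (Finset.mem_univ _) h
  rw [e1, e2, h]

theorem X2_comm_D2 (C : Core0 A ι) (a : A) :
    X2 C.ε C.X * D2 C.δ C.ε a = D2 C.δ C.ε a * X2 C.ε C.X := by
  rw [X2_eq, D2_eq, ← map_mul, ← map_mul, C.Xδ]

theorem scTS (C : Core0 A ι) : sc A C.T * sc A C.S = 1 := by
  rw [sc_mul, C.TS, sc_one]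

theorem scST (C : Core0 A ι) : sc A C.S * sc A C.T = 1 := by
  rw [sc_mul, C.ST, sc_one]

theorem T_D2 (C : Core0 A ι) (a : A) :
    sc A C.T * D2 C.δ C.ε a = D1 C.δ C.ε a * sc A C.T := by
  have h : sc A C.T * (sc A C.S * D1 C.δ C.ε a) * sc A C.T
      = sc A C.T * (D2 C.δ C.ε a * sc A C.S) * sc A C.T := by rw [C.inter a]
  calc sc A C.T * D2 C.δ C.ε a
      = sc A C.T * (D2 C.δ C.ε a * sc A C.S) * sc A C.T := by
        rw [mul_assoc, mul_assoc, scST, mul_one]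
    _ = sc A C.T * (sc A C.S * D1 C.δ C.ε a) * sc A C.T := h.symm
    _ = D1 C.δ C.ε a * sc A C.T := by
        rw [← mul_assoc (sc A C.T), scTS, one_mul]

theorem X1p_comm_D2 (C : Core0 A ι) (a : A) :
    C.X1p * D2 C.δ C.ε a = D2 C.δ C.ε a * C.X1p := by
  unfold Core0.X1p
  rw [mul_assoc, T_D2, ← mul_assoc, mul_assoc (sc A C.S), X1_comm_D1, ← mul_assoc, C.inter]
  simp only [mul_assoc]

theorem X1p_pow (C : Core0 A ι) (k : ℕ) :
    C.X1p ^ k = sc A C.S * X1 C.X ^ k * sc A C.T := by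
  induction k with
  | zero => rw [pow_zero, pow_zero, mul_one, scST]
  | succ k ih =>
    rw [pow_succ, ih, pow_succ]
    unfold Core0.X1p
    calc sc A C.S * X1 C.X ^ k * sc A C.T * (sc A C.S * X1 C.X * sc A C.T)
        = sc A C.S * X1 C.X ^ k * (sc A C.T * sc A C.S) * X1 C.X * sc A C.T := by
          simp only [mul_assoc]
      _ = sc A C.S * (X1 C.X ^ k * X1 C.X) * sc A C.T := by
          rw [scTS, mul_one]; simp only [mul_assoc]

theorem pev_X1p (C : Core0 A ι) (p : Polynomial ℂ) :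
    pev p C.X1p = sc A C.S * pev p (X1 C.X) * sc A C.T := by
  unfold pev
  induction p using Polynomial.induction_on' with
  | add p q hp hq => rw [map_add, map_add, hp, hq, mul_add, add_mul]
  | monomial n a =>
    rw [Polynomial.aeval_monomial, Polynomial.aeval_monomial, X1p_pow, ← Algebra.smul_def,
      ← Algebra.smul_def, Matrix.mul_smul, Matrix.smul_mul]

/-! ### Weights -/

/-- the weight of an index -/
def wt (C : Core0 A ι) (x : ι × ι) : ℂ := (C.θ x.1 : ℂ)⁻¹ * (C.θ x.2 : ℂ)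

theorem wt_ne (C : Core0 A ι) (x : ι × ι) : wt C x ≠ 0 :=
  mul_ne_zero (inv_ne_zero (C.θ x.1).ne_zero) (C.θ x.2).ne_zero

/-- homogeneous matrices -/
def HomM (C : Core0 A ι) (M : Matrix (ι × ι) (ι × ι) A) : Prop :=
  ∀ x y, C.φ (M x y) = (wt C x * (wt C y)⁻¹) • M x y

theorem HomM_one (C : Core0 A ι) : HomM C 1 := by
  intro x y
  rw [Matrix.one_apply]
  by_cases h : x = y
  · rw [if_pos h, map_one, h, mul_inv_cancel₀ (wt_ne C y), one_smul]
  · rw [if_neg h, map_zero, smul_zero]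

theorem HomM_mul (C : Core0 A ι) {M N : Matrix (ι × ι) (ι × ι) A} (hM : HomM C M) (hN : HomM C N) :
    HomM C (M * N) := by
  intro x y
  rw [Matrix.mul_apply, map_sum, Finset.smul_sum]
  refine Finset.sum_congr rfl fun z _ => ?_
  rw [map_mul, hM, hN, smul_mul_smul_comm]
  congr 1
  have := wt_ne C z
  field_simp

theorem HomM_pow (C : Core0 A ι) {M : Matrix (ι × ι) (ι × ι) A} (hM : HomM C M) (k : ℕ) :
    HomM C (M ^ k) := by
  induction k with
  | zero => rw [pow_zero]; exact HomM_one C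
  | succ k ih => rw [pow_succ]; exact HomM_mul C ih hM

theorem HomM_mulVec (C : Core0 A ι) {M : Matrix (ι × ι) (ι × ι) A} (hM : HomM C M) (x : ι × ι) :
    C.φ ((M *ᵥ C.u) x) = wt C x • (M *ᵥ C.u) x := by
  change C.φ (∑ z, M x z * C.u z) = wt C x • ∑ z, M x z * C.u z
  rw [map_sum, Finset.smul_sum]
  refine Finset.sum_congr rfl fun z _ => ?_
  rw [map_mul, hM, C.φu, smul_mul_smul_comm]
  congr 1
  have h := wt_ne C z
  change wt C x * (wt C z)⁻¹ * wt C z = wt C x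
  field_simp

theorem HomM_bvu (C : Core0 A ι) {M : Matrix (ι × ι) (ι × ι) A} (hM : HomM C M) (k : ℕ) :
    C.φ (bvu C.v C.u M k) = bvu C.v C.u M k := by
  unfold bvu
  change C.φ (∑ x, C.v x * (M ^ k *ᵥ C.u) x) = ∑ x, C.v x * (M ^ k *ᵥ C.u) x
  rw [map_sum]
  refine Finset.sum_congr rfl fun x _ => ?_
  rw [map_mul, HomM_mulVec C (HomM_pow C hM k), C.φv, smul_mul_smul_comm]
  have h1 := (C.θ x.1).ne_zero
  have h2 := (C.θ x.2).ne_zero
  have : (C.θ x.1 : ℂ) * (C.θ x.2 : ℂ)⁻¹ * wt C x = 1 := by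
    unfold wt
    field_simp
  rw [this, one_smul]

theorem HomM_X2 (C : Core0 A ι) : HomM C (X2 C.ε C.X) := by
  intro x y
  simp only [X2, Matrix.of_apply]
  have h1 := C.φε (C.X x.1 y.1) x.2 y.2
  rw [C.φX, map_smul, Matrix.smul_apply] at h1
  have h3 := (C.θ x.1).ne_zero
  have h4 := (C.θ x.2).ne_zero
  have h5 := (C.θ y.1).ne_zero
  have h6 := (C.θ y.2).ne_zero
  have h2 : C.φ (C.ε (C.X x.1 y.1) x.2 y.2)
      = ((C.θ x.2 : ℂ) * (C.θ y.2 : ℂ)⁻¹) • (((C.θ x.1 : ℂ)⁻¹ * (C.θ y.1 : ℂ)) •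
          C.ε (C.X x.1 y.1) x.2 y.2) := by
    rw [h1, smul_smul]
    have : (C.θ x.2 : ℂ) * (C.θ y.2 : ℂ)⁻¹ * ((C.θ x.2 : ℂ)⁻¹ * (C.θ y.2 : ℂ)) = 1 := by
      field_simp
    rw [this, one_smul]
  rw [h2, smul_smul]
  congr 1
  unfold wt
  field_simp

theorem HomM_X1p (C : Core0 A ι) : HomM C C.X1p := by
  intro x y
  unfold Core0.X1p
  rw [Matrix.mul_apply, map_sum, Finset.smul_sum]
  refine Finset.sum_congr rfl fun w _ => ?_
  rw [Matrix.mul_apply, Finset.sum_mul, map_sum, Finset.smul_sum]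
  refine Finset.sum_congr rfl fun z _ => ?_
  simp only [sc, Matrix.map_apply, X1, Matrix.of_apply]
  by_cases hS : C.S x z = 0
  · rw [hS]; simp
  by_cases hT : C.T w y = 0
  · rw [hT]; simp
  by_cases hzw : z.1 = w.1
  · rw [if_pos hzw, map_mul, map_mul, AlgEquiv.commutes, AlgEquiv.commutes, C.φX]
    have h1 := C.φS x z hS
    have h2 := C.φT w y hT
    rw [mul_smul_comm, smul_mul_assoc]
    congr 1
    unfold wt
    have a1 := (C.θ x.1).ne_zero
    have a2 := (C.θ x.2).ne_zero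
    have a3 := (C.θ y.1).ne_zero
    have a4 := (C.θ y.2).ne_zero
    have a5 := (C.θ z.1).ne_zero
    have a6 := (C.θ z.2).ne_zero
    have a7 := (C.θ w.1).ne_zero
    have a8 := (C.θ w.2).ne_zero
    rw [hzw] at h1
    field_simp
    linear_combination (-(C.θ x.1 : ℂ)) * h2 + (C.θ y.1 : ℂ) * h1
  · rw [if_neg hzw]; simp

theorem bvu_comm (C : Core0 A ι) {M : Matrix (ι × ι) (ι × ι) A}
    (hM : ∀ a, M * D2 C.δ C.ε a = D2 C.δ C.ε a * M) (k : ℕ) (a : A) :
    bvu C.v C.u M k * a = a * bvu C.v C.u M k := by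
  have h1 : M ^ k * D2 C.δ C.ε a = D2 C.δ C.ε a * M ^ k :=
    (Commute.pow_left (hM a : Commute M (D2 C.δ C.ε a)) k)
  unfold bvu
  have e1 : (C.v ⬝ᵥ (M ^ k *ᵥ C.u)) * a = C.v ⬝ᵥ (M ^ k *ᵥ (fun x => C.u x * a)) := by
    simp only [dotProduct, mulVec, Finset.sum_mul, mul_assoc]
  have e2 : a * (C.v ⬝ᵥ (M ^ k *ᵥ C.u)) = (fun x => a * C.v x) ⬝ᵥ (M ^ k *ᵥ C.u) := by
    simp only [dotProduct, Finset.mul_sum, mul_assoc]
  rw [e1, e2, ← C.uD a, ← C.vD a, Matrix.mulVec_mulVec, h1, ← Matrix.mulVec_mulVec,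
    Matrix.dotProduct_mulVec]

theorem vecMulVec_sandwich (C : Core0 A ι) (P Q : Matrix (ι × ι) (ι × ι) A) :
    C.v ⬝ᵥ ((P * Matrix.vecMulVec C.u C.v * Q) *ᵥ C.u)
      = (C.v ⬝ᵥ (P *ᵥ C.u)) * (C.v ⬝ᵥ (Q *ᵥ C.u)) := by
  have h1 : Matrix.vecMulVec C.u C.v *ᵥ (Q *ᵥ C.u)
      = fun x => C.u x * (C.v ⬝ᵥ (Q *ᵥ C.u)) := by
    funext x
    simp only [mulVec, dotProduct, vecMulVec_apply, Finset.mul_sum, mul_assoc]
  rw [← Matrix.mulVec_mulVec, ← Matrix.mulVec_mulVec, h1]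
  simp only [dotProduct, mulVec, Finset.sum_mul, mul_assoc]

theorem X2_pow_exp (C : Core0 A ι) (k : ℕ) :
    X2 C.ε C.X ^ k = C.X1p ^ k + ∑ r ∈ Finset.range k,
      C.X1p ^ r * Matrix.vecMulVec C.u C.v * X2 C.ε C.X ^ (k - 1 - r) := by
  induction k with
  | zero => simp
  | succ k ih =>
    have h0 : X2 C.ε C.X = C.X1p + Matrix.vecMulVec C.u C.v := C.X2eq
    have h1 : X2 C.ε C.X ^ (k + 1) = C.X1p * X2 C.ε C.X ^ k
        + Matrix.vecMulVec C.u C.v * X2 C.ε C.X ^ k := by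
      rw [pow_succ', ← add_mul, ← h0]
    have h2 : C.X1p * X2 C.ε C.X ^ k = C.X1p ^ (k + 1) + ∑ r ∈ Finset.range k,
        C.X1p ^ (r + 1) * Matrix.vecMulVec C.u C.v * X2 C.ε C.X ^ (k - 1 - r) := by
      conv_lhs => rw [ih]
      rw [mul_add, ← pow_succ', Finset.mul_sum]
      congr 1
      refine Finset.sum_congr rfl fun r _ => ?_
      rw [pow_succ']
      simp only [mul_assoc]
    rw [h1, h2, Finset.sum_range_succ']
    have h3 : ∑ r ∈ Finset.range k, C.X1p ^ (r + 1) * Matrix.vecMulVec C.u C.v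
          * X2 C.ε C.X ^ (k + 1 - 1 - (r + 1))
        = ∑ r ∈ Finset.range k, C.X1p ^ (r + 1) * Matrix.vecMulVec C.u C.v
          * X2 C.ε C.X ^ (k - 1 - r) := by
      refine Finset.sum_congr rfl fun r _ => ?_
      congr 2
      omega
    rw [h3, pow_zero, one_mul, Nat.add_sub_cancel, Nat.sub_zero]
    abel

theorem b_rec (C : Core0 A ι) (k : ℕ) :
    C.b k = C.β k + ∑ r ∈ Finset.range k, C.β r * C.b (k - 1 - r) := by
  unfold Core0.b Core0.β bvu
  conv_lhs => rw [X2_pow_exp C k]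
  rw [Matrix.add_mulVec, dotProduct_add]
  congr 1
  have h1 : (∑ r ∈ Finset.range k, C.X1p ^ r * Matrix.vecMulVec C.u C.v
      * X2 C.ε C.X ^ (k - 1 - r)) *ᵥ C.u
      = ∑ r ∈ Finset.range k, (C.X1p ^ r * Matrix.vecMulVec C.u C.v
      * X2 C.ε C.X ^ (k - 1 - r)) *ᵥ C.u := by
    rw [Matrix.sum_mulVec]
  rw [h1, dotProduct_sum]
  refine Finset.sum_congr rfl fun r _ => ?_
  rw [vecMulVec_sandwich]

theorem t_core0 : S_CORE0 := by
  intro A _ _ ι _ _ C
  have hb : ∀ k a, C.b k * a = a * C.b k := fun k a => bvu_comm C (X2_comm_D2 C) k a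
  have hβ : ∀ k a, C.β k * a = a * C.β k := fun k a => bvu_comm C (X1p_comm_D2 C) k a
  have fb : ∀ k, C.φ (C.b k) = C.b k := fun k => HomM_bvu C (HomM_X2 C) k
  have fβ : ∀ k, C.φ (C.β k) = C.β k := fun k => HomM_bvu C (HomM_X1p C) k
  refine ⟨X1_comm_D1 C, X2_comm_D2 C, T_D2 C, X1p_comm_D2 C, pev_X1p C, ?_, hb, hβ, fb, fβ,
    b_rec C, ?_, ?_⟩
  · intro k x
    exact HomM_mulVec C (HomM_pow C (HomM_X2 C) k) x
  · intro k a
    unfold Core0.pi
    cases k with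
    | zero => simp [piv]
    | succ k =>
      simp only [piv]
      rw [sub_mul, mul_sub, smul_mul_assoc, mul_smul_comm, hb, Finset.sum_mul, Finset.mul_sum]
      congr 1
      refine Finset.sum_congr rfl fun r _ => ?_
      rw [smul_mul_assoc, mul_smul_comm, mul_assoc, hb, ← mul_assoc, hβ, mul_assoc]
  · intro k
    unfold Core0.pi
    cases k with
    | zero => simp [piv]
    | succ k =>
      simp only [piv]
      rw [map_sub, map_smul, fb, map_sum]
      congr 1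
      refine Finset.sum_congr rfl fun r _ => ?_
      rw [map_smul, map_mul, fb, fβ]

end

end

end Pool.Agent.Helper57.SQ
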