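import Pool.Agent.Helper34.SQ.GoalsM

/-!
Project SQ (MP_bb32d1_al), packet G1.
-/

set_option autoImplicit false
set_option linter.unusedSectionVars false

namespace Pool.Agent.Helper57.SQ

noncomputable section

open Finset Pool.Agent.Helper19.SQ Pool.Agent.Helper34.SQ

theorem one_ne2 {l : ℕ} (hl : 2 ≤ l) : (1 : ZMod l) ≠ 0 := by
  intro h
  have h1 : ((1 : ℕ) : ZMod l) = 0 := by rw [Nat.cast_one]; exact h
  rw [ZMod.natCast_eq_zero_iff] at h1
  have := Nat.le_of_dvd one_pos h1
  omega

theorem al_inj {l : ℕ} (hl : 2 ≤ l) {c c' : ZMod l} (h : al c = al c') : c = c' := by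
  have h1 := congrFun h c
  simp only [al] at h1
  have h2 : c ≠ c + 1 := fun h2 => one_ne2 hl (left_eq_add.1 h2)
  rw [if_pos trivial, if_neg h2] at h1
  by_contra hne
  rw [if_neg hne] at h1
  by_cases h3 : c = c' + 1
  · rw [if_pos h3] at h1; omega
  · rw [if_neg h3] at h1; omega

theorem ty_sub_single {n l : ℕ} (x : Fin n → ℤ) (p : Fin n) :
    Pool.Agent.Helper34.SQ.ty l (x - Pi.single p 1)
      = Pool.Agent.Helper34.SQ.ty l x + al (((x p : ℤ) : ZMod l) - 1) := by
  classical
  funext c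
  have h0 : ∀ y : Fin n → ℤ, Pool.Agent.Helper34.SQ.ty l y c
      = ∑ i, if ((y i : ℤ) : ZMod l) = c then (1 : ℤ) else 0 := by
    intro y
    unfold Pool.Agent.Helper34.SQ.ty
    rw [card_filter]
    push_cast
    rfl
  rw [Pi.add_apply, h0, h0, ← sub_eq_iff_eq_add', ← sum_sub_distrib, sum_eq_single p]
  · rw [Pi.sub_apply, Pi.single_eq_same]
    push_cast
    simp only [al, sub_add_cancel]
    congr 1
    · by_cases h : ((x p : ℤ) : ZMod l) - 1 = c
      · rw [if_pos h, if_pos h.symm]
      · rw [if_neg h, if_neg (Ne.symm h)]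
    · by_cases h : ((x p : ℤ) : ZMod l) = c
      · rw [if_pos h, if_pos h.symm]
      · rw [if_neg h, if_neg (Ne.symm h)]
  · intro i _ hi
    rw [Pi.sub_apply, Pi.single_eq_of_ne hi, sub_zero, sub_self]
  · intro h; exact absurd (mem_univ _) h

/-- `bt` of a sum of shifts -/
theorem bt_shift {N : ℕ} (dm dm' : (Fin (N + 1) → ℤ) → ℤ) (e : Fin (N + 1) → (Fin (N + 1) → ℤ))
    (h : ∀ μ, dm' μ = ∑ p, dm (μ - e p)) (x : Fin (N + 1) → ℤ) :
    bt dm' x = ∑ p, bt dm (x - e p) := by
  unfold bt
  rw [sum_comm]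
  refine sum_congr rfl fun S _ => ?_
  rw [h, mul_sum]
  refine sum_congr rfl fun p _ => ?_
  congr 2
  abel

theorem bt_add {N : ℕ} (dm dm1 dm2 : (Fin (N + 1) → ℤ) → ℤ)
    (h : ∀ μ, dm μ = dm1 μ + dm2 μ) (x : Fin (N + 1) → ℤ) :
    bt dm x = bt dm1 x + bt dm2 x := by
  unfold bt
  rw [← sum_add_distrib]
  refine sum_congr rfl fun S _ => ?_
  rw [h, mul_add]

theorem t_g1 (hGSUB : S_GSUB) (hFSUPP : S_FSUPP) (hTEN : S_TEN) (hGSUP : S_GSUP) : S_G1 := by
  intro N l _ q hl s D C hS c m I β hβ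
  have hl2 : 2 ≤ l := by have := hS.par.h3; omega
  obtain ⟨-, hsup⟩ := hGSUP N l q hl s D C hS m I β hβ
  obtain ⟨M, _, _, _, _, Θ, hM, he, hI, rfl⟩ := hβ
  obtain ⟨⟨Θ', hT, hdm⟩, -⟩ := hTEN N l q hl s D C hS M Θ hM
  let E : A N l q := C.e (m - al c)
  have hEc : ∀ a, E * a = a * E := fun a => C.e_cen _ a
  have hEi : E * E = E := C.e_idem _
  have hEφ : tor N l q hl s E = E := by rw [← hS.c0.φ]; exact C.φe _
  let W : Submodule (A N l q) (Ten D.dl M) :=
    { carrier := {t | E • t = t}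
      add_mem' := fun {a b} ha hb => by
        change E • (a + b) = a + b
        rw [smul_add, ha, hb]
      zero_mem' := smul_zero _
      smul_mem' := fun a t ht => by
        change E • (a • t) = a • t
        rw [smul_smul, hEc, mul_smul, ht] }
  have hWmem : ∀ t, t ∈ W ↔ E • t = t := fun t => Iff.rfl
  have hWstab : ∀ t ∈ W, Θ' t ∈ W := by
    intro t ht
    rw [hWmem] at ht ⊢
    conv_rhs => rw [← ht]
    rw [hT.eq, hEφ]
  obtain ⟨Θw, Θq, hw1, hq1, hGw, hGq, hdm2⟩ := hGSUB N l q hl s hS.gen (Ten D.dl M) Θ' W hT hWstab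
  refine ⟨W, inferInstance, inferInstance, inferInstance, inferInstance, Θw, hGw, ?_, ?_, ?_⟩
  · intro x
    apply Subtype.ext
    exact x.2
  · intro a ha x
    apply Subtype.ext
    change a • (x : Ten D.dl M) = 0
    have hx : E • (x : Ten D.dl M) = x := x.2
    rw [← hx, smul_smul]
    funext i
    rw [Ten.smul_apply]
    change ∑ j, D.dl (a * E) i j • (x : Ten D.dl M) j = 0
    apply sum_eq_zero
    intro j _
    apply hI
    have := ha i j
    rw [hS.c0.δ] at this
    exact this
  · funext x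
    have h1 : bt (dmM N s Θ') x = ∑ p, bt (dmM N s Θ) (x - Pi.single p 1) :=
      bt_shift _ _ (fun p => Pi.single p 1) hdm x
    have h2 : bt (dmM N s Θ') x = bt (dmM N s Θw) x + bt (dmM N s Θq) x :=
      bt_add _ _ _ hdm2 x
    by_cases hx : Pool.Agent.Helper34.SQ.ty l x = m - al c
    · have h3 : bt (dmM N s Θq) x = 0 := by
        refine hFSUPP N l q hl s D C hS (Ten D.dl M ⧸ W) Θq hGq (m - al c) ?_ x hx
        intro t
        obtain ⟨t, rfl⟩ := Submodule.Quotient.mk_surjective W t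
        rw [← Submodule.Quotient.mk_smul, Submodule.Quotient.mk_eq_zero, hWmem]
        change E • (E • t) = E • t
        rw [smul_smul, hEi]
      rw [h3, add_zero] at h2
      rw [← h2, h1]
      unfold Fc
      apply sum_filter_of_ne
      intro p _ hp
      have h4 := hsup _ hp
      rw [ty_sub_single, hx] at h4
      have h5 : al (((x p : ℤ) : ZMod l) - 1) = al c := by
        have h7 : al (((x p : ℤ) : ZMod l) - 1)
            = (m - al c + al (((x p : ℤ) : ZMod l) - 1)) - m + al c := by abel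
        rw [h7, h4]
        abel
      have h6 := al_inj hl2 h5
      rw [← h6, sub_add_cancel]
    · have h3 : bt (dmM N s Θw) x = 0 := by
        refine hFSUPP N l q hl s D C hS W Θw hGw (Pool.Agent.Helper34.SQ.ty l x) ?_ x rfl
        intro t
        apply Subtype.ext
        change C.e (Pool.Agent.Helper34.SQ.ty l x) • (t : Ten D.dl M) = 0
        have ht : E • (t : Ten D.dl M) = t := t.2
        rw [← ht, smul_smul]
        change (C.e (Pool.Agent.Helper34.SQ.ty l x) * C.e (m - al c)) • (t : Ten D.dl M) = 0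
        rw [C.e_orth _ _ hx, zero_smul]
      rw [h3]
      unfold Fc
      apply sum_eq_zero
      intro p hp
      by_contra hne
      have h4 := hsup _ hne
      rw [ty_sub_single, (mem_filter.1 hp).2, add_sub_cancel_right] at h4
      apply hx
      rw [← h4]
      abel

end

end Pool.Agent.Helper57.SQ
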