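import Mathlib

/-!
Project SQ (MP_bb32d1_al): linear algebra of eigenspaces in a short exact sequence.
-/

set_option autoImplicit false

namespace Pool.Agent.Helper57.SQ

noncomputable section

open Module

/-- if `A ≤ B`, `B` independent and `⨆ A = ⊤` then `A = B`. -/
theorem eq_of_iSup_top {X V : Type*} [AddCommGroup V] [Module ℂ V]
    (A B : X → Submodule ℂ V) (hAB : ∀ x, A x ≤ B x) (hB : iSupIndep B) (hA : ⨆ x, A x = ⊤)
    (x : X) : A x = B x := by
  apply le_antisymm (hAB x)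
  have h1 : (⊤ : Submodule ℂ V) ≤ A x ⊔ ⨆ (y) (_ : y ≠ x), B y := by
    rw [← hA]
    apply iSup_le
    intro y
    by_cases hy : y = x
    · rw [hy]; exact le_sup_left
    · have h0 : B y ≤ ⨆ (y) (_ : y ≠ x), B y :=
        le_iSup₂ (f := fun (y : X) (_ : y ≠ x) => B y) y hy
      exact (hAB y).trans (h0.trans le_sup_right)
  have h2 : (A x ⊔ ⨆ (y) (_ : y ≠ x), B y) ⊓ B x = A x ⊔ (⨆ (y) (_ : y ≠ x), B y) ⊓ B x :=
    sup_inf_assoc_of_le _ (hAB x)
  have h3 : (⨆ (y) (_ : y ≠ x), B y) ⊓ B x = ⊥ := by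
    rw [inf_comm]
    exact (hB x).eq_bot
  rw [h3, sup_bot_eq] at h2
  rw [← h2]
  exact le_inf (le_top.trans h1) le_rfl

theorem eig_bot {X V : Type*} [AddCommGroup V] [Module ℂ V] (c : X → ℂ) (Θ : End ℂ V)
    (h : ⨆ x, Module.End.eigenspace Θ (c x) = ⊤) (μ : ℂ) (hμ : ∀ x, c x ≠ μ) :
    Module.End.eigenspace Θ μ = ⊥ := by
  have h1 := (Module.End.eigenspaces_iSupIndep Θ) μ
  have h2 : (⨆ (ν) (_ : ν ≠ μ), Module.End.eigenspace Θ ν) = ⊤ := by
    rw [eq_top_iff, ← h]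
    apply iSup_le
    intro x
    exact le_iSup₂ (f := fun (ν : ℂ) (_ : ν ≠ μ) => Module.End.eigenspace Θ ν) (c x) (hμ x)
  rw [h2] at h1
  exact disjoint_top.1 h1

theorem ses_eig {X V' V V'' : Type*} [AddCommGroup V'] [Module ℂ V'] [AddCommGroup V]
    [Module ℂ V] [AddCommGroup V''] [Module ℂ V''] [FiniteDimensional ℂ V]
    (c : X → ℂ) (hc : Function.Injective c) (ι : V' →ₗ[ℂ] V) (f : V →ₗ[ℂ] V'')
    (hι : Function.Injective ι) (hf : Function.Surjective f)
    (hex : ∀ v, f v = 0 ↔ ∃ w, ι w = v) (Θ' : End ℂ V') (Θ : End ℂ V) (Θ'' : End ℂ V'')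
    (h1 : ∀ w, ι (Θ' w) = Θ (ι w)) (h2 : ∀ v, f (Θ v) = Θ'' (f v))
    (hsup : ⨆ x, Module.End.eigenspace Θ (c x) = ⊤) :
    (⨆ x, Module.End.eigenspace Θ' (c x) = ⊤) ∧ (⨆ x, Module.End.eigenspace Θ'' (c x) = ⊤) ∧
    (∀ x, (Module.End.eigenspace Θ (c x)).map f = Module.End.eigenspace Θ'' (c x)) ∧
    ∀ x, finrank ℂ (Module.End.eigenspace Θ (c x))
      = finrank ℂ (Module.End.eigenspace Θ' (c x)) + finrank ℂ (Module.End.eigenspace Θ'' (c x)) := by
  have hmem' : ∀ (μ : ℂ) (w : V'), w ∈ Module.End.eigenspace Θ' μ ↔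
      ι w ∈ Module.End.eigenspace Θ μ := by
    intro μ w
    rw [Module.End.mem_eigenspace_iff, Module.End.mem_eigenspace_iff, ← h1, ← map_smul]
    exact ⟨fun h => by rw [h], fun h => hι h⟩
  have hmem : ∀ (μ : ℂ) (v : V), v ∈ Module.End.eigenspace Θ μ →
      f v ∈ Module.End.eigenspace Θ'' μ := by
    intro μ v hv
    rw [Module.End.mem_eigenspace_iff] at hv ⊢
    rw [← h2, hv, map_smul]
  have hle : ∀ x, (Module.End.eigenspace Θ (c x)).map f ≤ Module.End.eigenspace Θ'' (c x) := by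
    intro x
    rintro _ ⟨v, hv, rfl⟩
    exact hmem _ v hv
  have hmapsup : ⨆ x, (Module.End.eigenspace Θ (c x)).map f = ⊤ := by
    rw [← Submodule.map_iSup, hsup, Submodule.map_top]
    exact LinearMap.range_eq_top.2 hf
  have hsup'' : ⨆ x, Module.End.eigenspace Θ'' (c x) = ⊤ := by
    rw [eq_top_iff, ← hmapsup]
    exact iSup_mono hle
  have hindep : iSupIndep (fun x => Module.End.eigenspace Θ'' (c x)) :=
    (Module.End.eigenspaces_iSupIndep Θ'').comp hc
  have hsurj : ∀ x, (Module.End.eigenspace Θ (c x)).map f = Module.End.eigenspace Θ'' (c x) :=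
    eq_of_iSup_top _ _ hle hindep hmapsup
  -- the subspace
  have hall : ⨆ μ : ℂ, Module.End.genEigenspace Θ μ 1 = ⊤ := by
    rw [eq_top_iff, ← hsup]
    apply iSup_le
    intro x
    exact le_iSup (fun μ : ℂ => Module.End.genEigenspace Θ μ 1) (c x)
  have hstab : ∀ v ∈ LinearMap.range ι, Θ v ∈ LinearMap.range ι := by
    rintro _ ⟨w, rfl⟩
    exact ⟨Θ' w, h1 w⟩
  have hp := Submodule.eq_iSup_inf_genEigenspace (p := LinearMap.range ι) (f := Θ) 1 hstab hall
  have hpe : ∀ μ : ℂ, LinearMap.range ι ⊓ Module.End.genEigenspace Θ μ 1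
      = (Module.End.eigenspace Θ' μ).map ι := by
    intro μ
    ext v
    constructor
    · rintro ⟨⟨w, rfl⟩, hv⟩
      exact ⟨w, (hmem' μ w).2 hv, rfl⟩
    · rintro ⟨w, hw, rfl⟩
      exact ⟨⟨w, rfl⟩, (hmem' μ w).1 hw⟩
  simp_rw [hpe] at hp
  rw [← Submodule.map_iSup, ← Submodule.map_top] at hp
  have hp2 : (⊤ : Submodule ℂ V') = ⨆ μ : ℂ, Module.End.eigenspace Θ' μ :=
    Submodule.map_injective_of_injective hι hp
  have hsup' : ⨆ x, Module.End.eigenspace Θ' (c x) = ⊤ := by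
    rw [eq_top_iff, hp2]
    apply iSup_le
    intro μ
    by_cases hμ : ∃ x, c x = μ
    · obtain ⟨x, rfl⟩ := hμ
      exact le_iSup (fun x => Module.End.eigenspace Θ' (c x)) x
    · push Not at hμ
      have h3 := eig_bot c Θ hsup μ hμ
      intro w hw
      have h4 := (hmem' μ w).1 hw
      rw [h3, Submodule.mem_bot] at h4
      have h5 : w = 0 := hι (by rw [h4, map_zero])
      rw [h5]
      exact Submodule.zero_mem _
  refine ⟨hsup', hsup'', hsurj, ?_⟩
  intro x
  let g : Module.End.eigenspace Θ (c x) →ₗ[ℂ] Module.End.eigenspace Θ'' (c x) :=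
    f.restrict (hmem (c x))
  let i : Module.End.eigenspace Θ' (c x) →ₗ[ℂ] Module.End.eigenspace Θ (c x) :=
    ι.restrict (fun w hw => (hmem' (c x) w).1 hw)
  have hg : LinearMap.range g = ⊤ := by
    rw [LinearMap.range_eq_top]
    rintro ⟨v'', hv''⟩
    rw [← hsurj x] at hv''
    obtain ⟨v, hv, rfl⟩ := hv''
    exact ⟨⟨v, hv⟩, rfl⟩
  have hi : Function.Injective i := by
    intro a b hab
    apply Subtype.ext
    apply hι
    exact congrArg Subtype.val hab
  have hker : LinearMap.range i = LinearMap.ker g := by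
    ext v
    constructor
    · rintro ⟨w, rfl⟩
      rw [LinearMap.mem_ker]
      apply Subtype.ext
      change f (ι w) = 0
      exact (hex _).2 ⟨w, rfl⟩
    · intro hv
      rw [LinearMap.mem_ker] at hv
      have h3 : f v.1 = 0 := congrArg Subtype.val hv
      obtain ⟨w, hw⟩ := (hex _).1 h3
      refine ⟨⟨w, (hmem' (c x) w).2 (by rw [hw]; exact v.2)⟩, ?_⟩
      apply Subtype.ext
      exact hw
  have h3 := LinearMap.finrank_range_add_finrank_ker g
  rw [hg, finrank_top, ← hker, LinearMap.finrank_range_of_inj hi] at h3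
  omega

end

end Pool.Agent.Helper57.SQ
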