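import Pool.Agent.Helper34.SQ.GoalsM
import Pool.Agent.Helper57.SQ.Eig

/-!
Project SQ (MP_bb32d1_al), packet GADD: kernel and image of a homomorphism of graded modules.
-/

set_option autoImplicit false

namespace Pool.Agent.Helper57.SQ

noncomputable section

open Pool.Agent.Helper19.SQ Pool.Agent.Helper34.SQ

theorem t_gadd : S_GADD := by
  intro N l q hl s hs M M'' _ _ _ _ _ _ _ _ Θ Θ'' f hM hf hfΘ
  have := hM.fd
  let fC : M →ₗ[ℂ] M'' := f.restrictScalars ℂ
  have hfC : ∀ m, fC m = f m := fun m => rfl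
  let ι : LinearMap.ker f →ₗ[ℂ] M := (LinearMap.ker f).subtype.restrictScalars ℂ
  have hι : ∀ m, ι m = (m : M) := fun m => rfl
  let Θk : LinearMap.ker f →ₗ[ℂ] LinearMap.ker f :=
    { toFun := fun m => ⟨Θ m, by
        rw [LinearMap.mem_ker, hfΘ, LinearMap.mem_ker.1 m.2, map_zero]⟩
      map_add' := fun a b => by
        apply Subtype.ext
        change Θ ((a : M) + (b : M)) = Θ a + Θ b
        rw [map_add]
      map_smul' := fun c a => by
        apply Subtype.ext
        change Θ (c • (a : M)) = c • Θ a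
        rw [map_smul] }
  have hΘk : ∀ m, (Θk m : M) = Θ m := fun m => rfl
  have key := ses_eig (tw N s) hs ι fC Subtype.val_injective hf (fun v => by
    constructor
    · intro h
      exact ⟨⟨v, LinearMap.mem_ker.2 h⟩, rfl⟩
    · rintro ⟨w, rfl⟩
      exact LinearMap.mem_ker.1 w.2) Θk Θ Θ'' (fun w => rfl) (fun v => hfΘ v) hM.sup
  obtain ⟨k1, k2, k3, k4⟩ := key
  refine ⟨⟨?_, ?_, k2, ?_⟩, Θk, hΘk, ⟨?_, ?_, k1, ?_⟩, ?_⟩
  · exact Module.Finite.of_surjective fC hf
  · intro a m''
    obtain ⟨m, rfl⟩ := hf m''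
    rw [← map_smul, ← hfΘ, hM.eq, map_smul, hfΘ]
  · intro μ m'' hm'' j
    rw [← k3 μ] at hm''
    obtain ⟨m, hm, rfl⟩ := hm''
    have h1 := hM.wt μ m hm j
    change gK N l q j • f m = (q ^ μ j : ℂ) • f m
    rw [← map_smul, h1]
    exact map_smul fC _ m
  · exact Module.Finite.of_injective ι Subtype.val_injective
  · intro a m
    apply Subtype.ext
    change Θ (a • (m : M)) = tor N l q hl s a • Θ m
    exact hM.eq a m
  · intro μ m hm j
    apply Subtype.ext
    change gK N l q j • (m : M) = (q ^ μ j : ℂ) • (m : M)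
    apply hM.wt μ m _ j
    rw [Module.End.mem_eigenspace_iff] at hm ⊢
    exact congrArg Subtype.val hm
  · intro μ
    unfold dmM
    rw [k4 μ]
    push_cast
    rfl

end

end Pool.Agent.Helper57.SQ
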