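import Pool.Agent.Helper34.SQ.GoalsG

/-!
Project SQ (MP_bb32d1_al), packet RM2: the maps `r_t`.
-/

set_option autoImplicit false

namespace Pool.Agent.Helper57.SQ

noncomputable section

open Pool.Agent.Helper34.SQ

theorem one_ne {l : ℕ} (hl : 2 ≤ l) : (1 : ZMod l) ≠ 0 := by
  intro h
  have h1 : ((1 : ℕ) : ZMod l) = 0 := by rw [Nat.cast_one]; exact h
  rw [ZMod.natCast_eq_zero_iff] at h1
  have := Nat.le_of_dvd one_pos h1
  omega

theorem nat_ne {l : ℕ} {i : ℕ} (h1 : 1 ≤ i) (h2 : i < l) : ((i : ℕ) : ZMod l) ≠ 0 := by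
  intro h
  rw [ZMod.natCast_eq_zero_iff] at h
  have := Nat.le_of_dvd (by omega) h
  omega

theorem scc_c {l : ℕ} (c : ZMod l) (y : ℤ) (h : (y : ZMod l) = c) : scc l c y = y + 1 := by
  unfold scc
  rw [if_pos h]

theorem scc_c1 {l : ℕ} (hl : 2 ≤ l) (c : ZMod l) (y : ℤ) (h : (y : ZMod l) = c + 1) :
    scc l c y = y - 1 := by
  unfold scc
  rw [if_neg, if_pos h]
  intro h2
  rw [h2] at h
  exact one_ne hl (left_eq_add.1 h)

theorem scc_other {l : ℕ} (c : ZMod l) (y : ℤ) (h : (y : ZMod l) ≠ c) (h2 : (y : ZMod l) ≠ c + 1) :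
    scc l c y = y := by
  unfold scc
  rw [if_neg h, if_neg h2]

theorem scc_invol {l : ℕ} (hl : 2 ≤ l) (c : ZMod l) (y : ℤ) : scc l c (scc l c y) = y := by
  by_cases h : (y : ZMod l) = c
  · rw [scc_c c y h, scc_c1 hl c (y + 1) (by push_cast; rw [h])]
    ring
  by_cases h2 : (y : ZMod l) = c + 1
  · rw [scc_c1 hl c y h2, scc_c c (y - 1) (by push_cast; rw [h2]; ring)]
    ring
  · rw [scc_other c y h h2, scc_other c y h h2]

theorem rtc_formula {l : ℕ} (hl : 2 ≤ l) (c : ZMod l) (t : ℕ) :
    (∀ y : ℤ, (y : ZMod l) = c + (t : ZMod l) → rtc l c t y = y - t) ∧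
    (∀ y : ℤ, ∀ i : ℕ, 1 ≤ i → i ≤ l - 1 → (y : ZMod l) = c + (t : ZMod l) + (i : ZMod l) →
      rtc l c t y = y + (((t + i - 1) / (l - 1) : ℕ) : ℤ)) := by
  induction t with
  | zero =>
    refine ⟨fun y _ => by simp [rtc], fun y i h1 h2 _ => ?_⟩
    have : (0 + i - 1) / (l - 1) = 0 := Nat.div_eq_of_lt (by omega)
    rw [this]
    simp [rtc]
  | succ t ih =>
    obtain ⟨ih1, ih2⟩ := ih
    constructor
    · intro y hy
      change rtc l c t (scc l (c + (t : ZMod l)) y) = _
      have hy' : (y : ZMod l) = c + (t : ZMod l) + 1 := by rw [hy]; push_cast; ring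
      rw [scc_c1 hl _ y hy', ih1 (y - 1) (by push_cast; rw [hy']; ring)]
      push_cast
      ring
    · intro y i h1 h2 hy
      change rtc l c t (scc l (c + (t : ZMod l)) y) = _
      by_cases hi : i = l - 1
      · have hil : ((i : ℕ) : ZMod l) + 1 = 0 := by
          have : ((i + 1 : ℕ) : ZMod l) = 0 := by
            rw [hi, Nat.sub_add_cancel (by omega)]
            exact ZMod.natCast_self l
          push_cast at this
          exact this
        have hy' : (y : ZMod l) = c + (t : ZMod l) := by
          rw [hy]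
          push_cast
          linear_combination hil
        rw [scc_c _ y hy']
        have hy2 : ((y + 1 : ℤ) : ZMod l) = c + (t : ZMod l) + ((1 : ℕ) : ZMod l) := by
          push_cast
          rw [hy']
        rw [ih2 (y + 1) 1 le_rfl (by omega) hy2]
        have e1 : t + 1 + i - 1 = t + (l - 1) := by omega
        rw [e1, Nat.add_div_right _ (by omega : 0 < l - 1), Nat.add_sub_cancel]
        push_cast
        ring
      · have hne0 : (y : ZMod l) ≠ c + (t : ZMod l) := by
          intro h
          rw [h] at hy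
          apply nat_ne (l := l) (i := i + 1) (by omega) (by omega)
          push_cast at hy ⊢
          linear_combination -hy
        have hne1 : (y : ZMod l) ≠ c + (t : ZMod l) + 1 := by
          intro h
          rw [h] at hy
          apply nat_ne (l := l) (i := i) (by omega) (by omega)
          push_cast at hy ⊢
          linear_combination -hy
        rw [scc_other _ y hne0 hne1, ih2 y (i + 1) (by omega) (by omega) (by
          rw [hy]; push_cast; ring)]
        congr 3
        omega

theorem rtc_bij {l : ℕ} (hl : 2 ≤ l) (c : ZMod l) (t : ℕ) : Function.Bijective (rtc l c t) := by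
  induction t with
  | zero => exact Function.bijective_id
  | succ t ih =>
    have h1 : Function.Involutive (scc l (c + (t : ZMod l))) := fun y => scc_invol hl _ y
    have h2 : rtc l c (t + 1) = rtc l c t ∘ scc l (c + (t : ZMod l)) := rfl
    rw [h2]
    exact ih.comp h1.bijective

theorem t_rm2 : S_RM2 := by
  intro l hl c t
  obtain ⟨h1, h2⟩ := rtc_formula hl c t
  refine ⟨rtc_bij hl c t, ?_, ?_⟩
  · intro y hy
    refine ⟨h1 y hy, ?_⟩
    have hy2 : ((y + 1 : ℤ) : ZMod l) = c + (t : ZMod l) + ((1 : ℕ) : ZMod l) := by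
      push_cast
      rw [hy]
    rw [h2 (y + 1) 1 le_rfl (by omega) hy2, Nat.add_sub_cancel]
  · intro y
    constructor
    · intro h
      have hz : ((rtc l c t y + t : ℤ) : ZMod l) = c + (t : ZMod l) := by
        push_cast
        rw [h]
      have h3 := h1 _ hz
      have h4 : rtc l c t y + t = y := (rtc_bij hl c t).1 (by rw [h3]; ring)
      rw [← h4]
      exact hz
    · intro h
      rw [h1 y h]
      push_cast
      rw [h]
      ring

end

end Pool.Agent.Helper57.SQ
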