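import Pool.Agent.Helper34.SQ.GoalsG

/-!
Project SQ (MP_bb32d1_al), packet SWAP.
-/

set_option autoImplicit false

namespace Pool.Agent.Helper57.SQ

noncomputable section

open Finset Pool.Agent.Helper34.SQ

theorem one_ne' {l : ℕ} (hl : 2 ≤ l) : (1 : ZMod l) ≠ 0 := by
  intro h
  have h1 : ((1 : ℕ) : ZMod l) = 0 := by rw [Nat.cast_one]; exact h
  rw [ZMod.natCast_eq_zero_iff] at h1
  have := Nat.le_of_dvd one_pos h1
  omega

theorem c1_ne {l : ℕ} (hl : 2 ≤ l) (c : ZMod l) : c + 1 ≠ c := by
  intro h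
  exact one_ne' hl (add_eq_left.1 h)

/-- the map `s_c` on vectors -/
theorem swp_eq {n l : ℕ} (hl : 2 ≤ l) (c : ZMod l) (x : Fin n → ℤ) :
    (fun p => scc l c (x p)) = x - ind {p | ((x p : ℤ) : ZMod l) = c + 1}
      + ind {p | ((x p : ℤ) : ZMod l) = c} := by
  funext p
  simp only [scc, ind, Pi.add_apply, Pi.sub_apply, mem_filter, mem_univ, true_and]
  by_cases h : ((x p : ℤ) : ZMod l) = c
  · have h2 : ((x p : ℤ) : ZMod l) ≠ c + 1 := fun h2 => c1_ne hl c (h2.symm.trans h)
    simp only [if_pos h, if_neg h2]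
    ring
  · by_cases h2 : ((x p : ℤ) : ZMod l) = c + 1
    · simp only [if_neg h, if_pos h2]
      ring
    · simp only [if_neg h, if_neg h2]
      ring

theorem ty_swp {n l : ℕ} (hl : 2 ≤ l) (c : ZMod l) (x : Fin n → ℤ) :
    ty l (fun p => scc l c (x p)) c = (#{p | ((x p : ℤ) : ZMod l) = c + 1} : ℤ) ∧
    ty l (fun p => scc l c (x p)) (c + 1) = (#{p | ((x p : ℤ) : ZMod l) = c} : ℤ) := by
  constructor
  · unfold ty
    congr 2
    ext p
    simp only [mem_filter, mem_univ, true_and, scc]
    by_cases h : ((x p : ℤ) : ZMod l) = c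
    · rw [if_pos h]
      push_cast
      rw [h]
      constructor
      · intro h3; exact absurd h3 (c1_ne hl c)
      · intro h3; exact absurd h3.symm (c1_ne hl c)
    · by_cases h2 : ((x p : ℤ) : ZMod l) = c + 1
      · rw [if_neg h, if_pos h2]
        push_cast
        rw [h2]
        simp
      · rw [if_neg h, if_neg h2]
        exact ⟨fun h3 => absurd h3 h, fun h3 => absurd h3 h2⟩
  · unfold ty
    congr 2
    ext p
    simp only [mem_filter, mem_univ, true_and, scc]
    by_cases h : ((x p : ℤ) : ZMod l) = c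
    · rw [if_pos h]
      push_cast
      rw [h]
      simp
    · by_cases h2 : ((x p : ℤ) : ZMod l) = c + 1
      · rw [if_neg h, if_pos h2]
        push_cast
        rw [h2]
        constructor
        · intro h3
          rw [add_sub_cancel_right] at h3
          exact absurd h3.symm (c1_ne hl c)
        · intro h3; exact absurd h3 (c1_ne hl c)
      · rw [if_neg h, if_neg h2]
        exact ⟨fun h3 => absurd h3 h2, fun h3 => absurd h3 h⟩

theorem ty_sub_ind {n l : ℕ} (hl : 2 ≤ l) (c : ZMod l) (x : Fin n → ℤ) (T : Finset (Fin n))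
    (hT : T ⊆ ({p | ((x p : ℤ) : ZMod l) = c + 1} : Finset (Fin n))) :
    ty l (x - ind T) c = (#{p | ((x p : ℤ) : ZMod l) = c} : ℤ) + #T ∧
    ty l (x - ind T) (c + 1) = (#{p | ((x p : ℤ) : ZMod l) = c + 1} : ℤ) - #T := by
  have hT' : ∀ p ∈ T, ((x p : ℤ) : ZMod l) = c + 1 := fun p hp => (mem_filter.1 (hT hp)).2
  constructor
  · have e : ({p | (((x - ind T) p : ℤ) : ZMod l) = c} : Finset (Fin n))
        = ({p | ((x p : ℤ) : ZMod l) = c} : Finset (Fin n)) ∪ T := by
      ext p
      simp only [mem_filter, mem_univ, true_and, mem_union, Pi.sub_apply, ind]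
      by_cases hp : p ∈ T
      · rw [if_pos hp]
        push_cast
        rw [hT' p hp]
        simp [hp]
      · rw [if_neg hp]
        simp [hp]
    have hd : Disjoint ({p | ((x p : ℤ) : ZMod l) = c} : Finset (Fin n)) T := by
      rw [disjoint_left]
      intro p hp hpT
      exact c1_ne hl c ((hT' p hpT).symm.trans (mem_filter.1 hp).2)
    unfold ty
    rw [e, card_union_of_disjoint hd]
    push_cast
    rfl
  · have e : ({p | (((x - ind T) p : ℤ) : ZMod l) = c + 1} : Finset (Fin n))
        = ({p | ((x p : ℤ) : ZMod l) = c + 1} : Finset (Fin n)) \ T := by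
      ext p
      simp only [mem_filter, mem_univ, true_and, mem_sdiff, Pi.sub_apply, ind]
      by_cases hp : p ∈ T
      · rw [if_pos hp]
        push_cast
        rw [hT' p hp]
        simp only [hp, not_true_eq_false, and_false, iff_false, add_sub_cancel_right]
        exact fun h => c1_ne hl c h.symm
      · rw [if_neg hp]
        simp [hp]
    unfold ty
    rw [e, card_sdiff_of_subset hT, Nat.cast_sub (card_le_card hT)]

theorem t_swap (hFIT : S_FIT) (hSWB : S_SWB) : S_SWAP := by
  intro n l hl c m β hβ hE h hh x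
  rw [hFIT n l hl c β h x]
  by_cases hcase : (#{p | ((x p : ℤ) : ZMod l) = c} : ℤ) = m (c + 1) ∧
      (#{p | ((x p : ℤ) : ZMod l) = c + 1} : ℤ) = m c
  · obtain ⟨h1, h2⟩ := hcase
    have h3 : #{p | ((x p : ℤ) : ZMod l) = c + 1} = #{p | ((x p : ℤ) : ZMod l) = c} + h := by
      have : (#{p | ((x p : ℤ) : ZMod l) = c + 1} : ℤ)
          = ((#{p | ((x p : ℤ) : ZMod l) = c} + h : ℕ) : ℤ) := by
        push_cast
        rw [h1, h2, hh]
        ring
      exact_mod_cast this
    rw [hSWB n l hl c β hE x _ h rfl h3, swp_eq hl, ← h1, Int.toNat_natCast]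
    ring
  · have hl0 : ∑ T ∈ powersetCard h {p | ((x p : ℤ) : ZMod l) = c + 1}, β (x - ind T) = 0 := by
      apply sum_eq_zero
      intro T hT
      rw [mem_powersetCard] at hT
      by_contra hne
      apply hcase
      have h1 := hβ _ hne
      obtain ⟨h2, h3⟩ := ty_sub_ind hl c x T hT.1
      rw [h1, hT.2] at h2 h3
      constructor <;> linarith
    have hr0 : β (fun p => scc l c (x p)) = 0 := by
      by_contra hne
      apply hcase
      have h1 := hβ _ hne
      obtain ⟨h2, h3⟩ := ty_swp hl c x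
      rw [h1] at h2 h3
      exact ⟨h3.symm, h2.symm⟩
    rw [hl0, hr0, mul_zero, mul_zero]

end

end Pool.Agent.Helper57.SQ
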