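import Pool.Agent.Helper34.SQ.GoalsM

/-!
Project SQ (MP_bb32d1_al), packet TEN: the tensor products with `V` and `V*`.
-/

set_option autoImplicit false
set_option linter.unusedSectionVars false

namespace Pool.Agent.Helper57.SQ

noncomputable section

open Finset Pool.Agent.Helper19.SQ Pool.Agent.Helper34.SQ

section

variable {N l : ℕ} {q : ℂ}

theorem tw_add (N : ℕ) (s : ℕ → ℂˣ) (μ ν : Fin (N + 1) → ℤ) :
    tw N s (μ + ν) = tw N s μ * tw N s ν := by
  unfold tw
  rw [← prod_mul_distrib]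
  refine prod_congr rfl fun j _ => ?_
  rw [Pi.add_apply, zpow_add₀ (s j).ne_zero]

theorem tw_neg (N : ℕ) (s : ℕ → ℂˣ) (μ : Fin (N + 1) → ℤ) :
    tw N s (-μ) = (tw N s μ)⁻¹ := by
  unfold tw
  rw [← prod_inv_distrib]
  refine prod_congr rfl fun j _ => ?_
  rw [Pi.neg_apply, zpow_neg]

theorem tw_sub (N : ℕ) (s : ℕ → ℂˣ) (μ ν : Fin (N + 1) → ℤ) :
    tw N s (μ - ν) = tw N s μ * (tw N s ν)⁻¹ := by
  rw [sub_eq_add_neg, tw_add, tw_neg]

theorem tw_single (N : ℕ) (s : ℕ → ℂˣ) (p : Fin (N + 1)) :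
    tw N s (Pi.single p 1) = (s p : ℂ) := by
  unfold tw
  rw [prod_eq_single p]
  · rw [Pi.single_eq_same, zpow_one]
  · intro j _ hj
    rw [Pi.single_eq_of_ne hj, zpow_zero]
  · intro h; exact absurd (mem_univ _) h

theorem tw_ne (N : ℕ) (s : ℕ → ℂˣ) (μ : Fin (N + 1) → ℤ) : tw N s μ ≠ 0 := by
  unfold tw
  exact prod_ne_zero_iff.2 fun j _ => zpow_ne_zero _ (s j).ne_zero

variable (hl : l ≠ 0) (s : ℕ → ℂˣ) (H : A N l q →ₐ[ℂ] Mat N (A N l q))
  (w : Fin (N + 1) → ℂ) (e : Fin (N + 1) → (Fin (N + 1) → ℤ))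
  (M : Type) [AddCommGroup M] [Module ℂ M] [Module (A N l q) M]
  [IsScalarTower ℂ (A N l q) M] (Θ : M →ₗ[ℂ] M)

/-- the operator on the tensor product -/
def Th : Ten H M →ₗ[ℂ] Ten H M where
  toFun f := fun p => w p • Θ (f p)
  map_add' f g := by
    funext p
    change w p • Θ (f p + g p) = w p • Θ (f p) + w p • Θ (g p)
    rw [map_add, smul_add]
  map_smul' c f := by
    funext p
    change w p • Θ (c • f p) = c • (w p • Θ (f p))
    rw [map_smul, smul_comm]

theorem Th_apply (f : Ten H M) (p : Fin (N + 1)) : Th H w M Θ f p = w p • Θ (f p) := rfl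

theorem mem_eig_Th (he : ∀ p, tw N s (e p) = w p) (μ : Fin (N + 1) → ℤ) (f : Ten H M) :
    f ∈ Module.End.eigenspace (Th H w M Θ) (tw N s μ) ↔
      ∀ p, f p ∈ Module.End.eigenspace Θ (tw N s (μ - e p)) := by
  rw [Module.End.mem_eigenspace_iff]
  have hw : ∀ p, w p ≠ 0 := fun p => by rw [← he p]; exact tw_ne N s _
  constructor
  · intro h p
    rw [Module.End.mem_eigenspace_iff]
    have h1 := congrFun h p
    change w p • Θ (f p) = tw N s μ • f p at h1
    rw [tw_sub, he, mul_comm, mul_smul, ← h1, smul_smul, inv_mul_cancel₀ (hw p), one_smul]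
  · intro h
    funext p
    have h1 := h p
    rw [Module.End.mem_eigenspace_iff] at h1
    change w p • Θ (f p) = tw N s μ • f p
    rw [h1, tw_sub, he, smul_smul, mul_comm (tw N s μ), ← mul_assoc, mul_inv_cancel₀ (hw p),
      one_mul]

/-- the projection to a summand -/
def evi (i : Fin (N + 1)) : Ten H M →ₗ[ℂ] M where
  toFun f := f i
  map_add' _ _ := rfl
  map_smul' _ _ := rfl

/-- the inclusion of a summand -/
def inc1 (p : Fin (N + 1)) : M →ₗ[ℂ] Ten H M := LinearMap.single ℂ (fun _ : Fin (N + 1) => M) p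

theorem inc1_apply (p : Fin (N + 1)) (m : M) (i : Fin (N + 1)) :
    inc1 H M p m i = if i = p then m else 0 := by
  change (Pi.single p m : Fin (N + 1) → M) i = _
  rw [Pi.single_apply]

theorem ten_gm (hw : ∀ a i j, H (tor N l q hl s a) i j = (w i * (w j)⁻¹) • tor N l q hl s (H a i j))
    (he : ∀ p, tw N s (e p) = w p) (hq : q ≠ 0)
    (hK : ∀ j a b : Fin (N + 1), H (gK N l q j) a b = if a = b then (q ^ e a j : ℂ) • gK N l q j else 0)
    (hM : GM (N := N) (q := q) hl s M Θ) :
    GM (N := N) (q := q) hl s (Ten H M) (Th H w M Θ) ∧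
      ∀ μ, dmM N s (Th H w M Θ) μ = ∑ p, dmM N s Θ (μ - e p) := by
  have := hM.fd
  have hw0 : ∀ p, w p ≠ 0 := fun p => by rw [← he p]; exact tw_ne N s _
  refine ⟨⟨inferInstance, ?_, ?_, ?_⟩, ?_⟩
  · intro a f
    funext i
    rw [Th_apply, Ten.smul_apply, Ten.smul_apply, map_sum, smul_sum]
    refine sum_congr rfl fun j _ => ?_
    rw [hM.eq, hw, Th_apply, smul_assoc]
    change w i • _ = (w i * (w j)⁻¹) • (tor N l q hl s (H a i j) • (w j • Θ (f j)))
    have h1 : tor N l q hl s (H a i j) • (w j • Θ (f j))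
        = w j • (tor N l q hl s (H a i j) • Θ (f j)) :=
      (lsm (M := M) (tor N l q hl s (H a i j))).map_smul (w j) (Θ (f j))
    rw [h1, smul_smul, mul_assoc, inv_mul_cancel₀ (hw0 j), mul_one]
  · rw [eq_top_iff]
    intro f _
    have h0 : f = ∑ p, inc1 H M p (f p) := by
      funext i
      have : (∑ p, inc1 H M p (f p)) i = ∑ p, inc1 H M p (f p) i := by
        exact map_sum (evi H M i) (fun p => inc1 H M p (f p)) univ
      rw [this]
      simp only [inc1_apply]
      rw [sum_ite_eq]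
      simp
    rw [h0]
    refine Submodule.sum_mem _ fun p _ => ?_
    have h1 : (⊤ : Submodule ℂ M).map (inc1 H M p)
        ≤ ⨆ μ : Fin (N + 1) → ℤ, Module.End.eigenspace (Th H w M Θ) (tw N s μ) := by
      rw [← hM.sup, Submodule.map_iSup]
      apply iSup_le
      intro ν
      refine le_trans ?_ (le_iSup
        (fun μ => Module.End.eigenspace (Th H w M Θ) (tw N s μ)) (ν + e p))
      rintro _ ⟨m, hm, rfl⟩
      change inc1 H M p m ∈ Module.End.eigenspace (Th H w M Θ) (tw N s (ν + e p))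
      rw [mem_eig_Th s H w e M Θ he]
      intro i
      rw [inc1_apply]
      by_cases hi : i = p
      · rw [if_pos hi, hi, add_sub_cancel_right]
        exact hm
      · rw [if_neg hi]
        exact Submodule.zero_mem _
    exact h1 ⟨f p, Submodule.mem_top, rfl⟩
  · intro μ f hf j
    rw [mem_eig_Th s H w e M Θ he] at hf
    funext i
    rw [Ten.smul_apply]
    change ∑ k, H (gK N l q j) i k • f k = (q ^ μ j : ℂ) • f i
    rw [sum_eq_single i]
    · rw [hK, if_pos rfl, smul_assoc, hM.wt _ _ (hf i) j, smul_smul, Pi.sub_apply,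
        ← zpow_add₀ hq, add_sub_cancel]
    · intro k _ hk
      rw [hK, if_neg (Ne.symm hk), zero_smul]
    · intro h; exact absurd (mem_univ _) h
  · intro μ
    unfold dmM
    rw [← Nat.cast_sum, ← Module.finrank_pi_fintype]
    norm_cast
    refine LinearEquiv.finrank_eq ?_
    exact
      { toFun := fun f => fun p => ⟨f.1 p, (mem_eig_Th s H w e M Θ he μ f.1).1 f.2 p⟩
        invFun := fun g => ⟨fun p => (g p).1,
          (mem_eig_Th s H w e M Θ he μ _).2 fun p => (g p).2⟩
        left_inv := fun f => rfl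
        right_inv := fun g => rfl
        map_add' := fun f g => rfl
        map_smul' := fun c f => rfl }

end

theorem t_ten : S_TEN := by
  intro N l _ q hl s D C hS M _ _ _ _ Θ hM
  have hq : q ≠ 0 := hS.par.prim.ne_zero (by have := hS.par.h3; omega)
  have hc := hS.c0
  constructor
  · refine ⟨Th D.dl (fun p => (s p : ℂ)) M Θ, ?_⟩
    refine ten_gm hl s D.dl (fun p => (s p : ℂ)) (fun p => Pi.single p 1) M Θ ?_
      (fun p => tw_single N s p) hq ?_ hM
    · intro a i j
      have h := C.φδ a i j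
      rw [hc.δ, hc.φ, hc.φ, hc.θ, hc.θ] at h
      exact h
    · intro j a b
      rw [D.dl_K]
      simp only [dK, Matrix.of_apply]
      by_cases hab : a = b
      · rw [if_pos hab, if_pos hab, Pi.single_apply]
        by_cases haj : (a : ℕ) = j
        · have : j = a := Fin.ext haj.symm
          rw [if_pos haj, if_pos this, zpow_one]
        · have : j ≠ a := fun h => haj (by rw [h])
          rw [if_neg haj, if_neg this, zpow_zero]
      · rw [if_neg hab, if_neg hab]
  · refine ⟨Th D.ep (fun p => (s p : ℂ)⁻¹) M Θ, ?_⟩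
    have key := ten_gm hl s D.ep (fun p => (s p : ℂ)⁻¹) (fun p => -Pi.single p 1) M Θ ?_
      (fun p => by rw [tw_neg, tw_single]) hq ?_ hM
    · obtain ⟨k1, k2⟩ := key
      refine ⟨k1, fun μ => ?_⟩
      rw [k2 μ]
      refine sum_congr rfl fun p _ => ?_
      rw [sub_neg_eq_add]
    · intro a i j
      have h := C.φε a i j
      rw [hc.ε, hc.φ, hc.φ, hc.θ, hc.θ] at h
      rw [h, inv_inv]
    · intro j a b
      rw [D.ep_K]
      simp only [eK, Matrix.of_apply]
      by_cases hab : a = b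
      · rw [if_pos hab, if_pos hab, Pi.neg_apply, Pi.single_apply]
        by_cases haj : (a : ℕ) = j
        · have : j = a := Fin.ext haj.symm
          rw [if_pos haj, if_pos this, zpow_neg_one]
        · have : j ≠ a := fun h => haj (by rw [h])
          rw [if_neg haj, if_neg this, neg_zero, zpow_zero]
      · rw [if_neg hab, if_neg hab]

end

end Pool.Agent.Helper57.SQ
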