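import Pool.Agent.Helper4.SQ.GoalsL

/-!
Project SQ (MP_bb32d1_al), packet KK: the commutative monoid generated by a set of families.
-/

set_option autoImplicit false
set_option linter.unusedSectionVars false

namespace Pool.Agent.Helper57.SQ

noncomputable section

open Pool.Agent.Helper19.SQ Pool.Agent.Helper4.SQ

variable {I : Type} [Fintype I] [DecidableEq I] {L : Type} [LieRing L] [LieAlgebra ℂ L]

/-- the unit family. -/
def oneF (G : GLd I L) : I → I → L := fun a b => if a = b then 0 else G.e a b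

/-- `P` is the product of `U` and `W`. -/
def PrR (U W P : I → I → L) : Prop :=
  ∀ a b c, a ≠ b → b ≠ c → a ≠ c → ⁅U a b, W b c⁆ = P a c

/-- the set `K`. -/
inductive KP (G : GLd I L) (S : Set (I → I → L)) : (I → I → L) → Prop
  | one : KP G S (oneF G)
  | base (X : I → I → L) (h : X ∈ S) : KP G S X
  | mul (U W P : I → I → L) (hU : KP G S U) (hW : KP G S W) (hz : ZRel U W) (hP : IsFam G P)
      (h : PrR U W P) : KP G S P

theorem oneF_ne (G : GLd I L) {a b : I} (h : a ≠ b) : oneF G a b = G.e a b := if_neg h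

theorem oneF_fam (G : GLd I L) : IsFam G (oneF G) where
  rel x y c d hxy hcd hn := by
    rw [oneF_ne G hcd, G.gl]
    by_cases h1 : y = c
    · subst h1
      have h2 : x ≠ d := fun h => hn ⟨rfl, h⟩
      rw [if_pos rfl, if_pos rfl, if_neg h2, if_neg h2, oneF_ne G h2]
    · rw [if_neg h1, if_neg h1]
      by_cases h2 : x = d
      · subst h2
        rw [if_pos rfl, if_pos rfl, oneF_ne G (Ne.symm h1)]
      · rw [if_neg h2, if_neg h2]
  wt z c d hcd := by
    rw [oneF_ne G hcd, G.gl]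
    by_cases h1 : z = c
    · subst h1
      rw [if_pos rfl, if_pos rfl, if_neg hcd, if_neg hcd]
      simp
    · by_cases h2 : z = d
      · subst h2
        rw [if_neg h1, if_neg h1, if_pos rfl, if_pos rfl]
        simp
      · rw [if_neg h1, if_neg h1, if_neg h2, if_neg h2]
        simp
  diag a := if_pos rfl

theorem zsymm {U W : I → I → L} (h : ZRel U W) : ZRel W U := by
  intro a b c d hab hcd hbc had
  rw [← lie_skew, h c d a b hcd hab had.symm hbc.symm, neg_zero]

theorem one_zrel (G : GLd I L) {X : I → I → L} (hX : IsFam G X) : ZRel (oneF G) X := by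
  intro a b c d hab hcd hbc had
  rw [oneF_ne G hab, hX.rel a b c d hab hcd fun h => hbc h.1, if_neg hbc, if_neg had, sub_zero]

theorem KP.fam {G : GLd I L} {S : Set (I → I → L)} (hS : ∀ X ∈ S, IsFam G X) {U : I → I → L}
    (h : KP G S U) : IsFam G U := by
  cases h with
  | one => exact oneF_fam G
  | base X h => exact hS U h
  | mul U' W P hU hW hz hP h => exact hP

theorem KP.zrel (hPR : S_PR) (hI : 5 ≤ Fintype.card I) {G : GLd I L} {S : Set (I → I → L)}
    (hS : ∀ X ∈ S, IsFam G X) (hZ : ∀ X ∈ S, ∀ Y ∈ S, ZRel X Y) {U W : I → I → L}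
    (hU : KP G S U) (hW : KP G S W) : ZRel U W := by
  have key : ∀ X : I → I → L, (∀ Y ∈ S, ZRel Y X) → IsFam G X → ∀ U, KP G S U → ZRel U X := by
    intro X hX hfX U hU
    induction hU with
    | one => exact one_zrel G hfX
    | base Y hY => exact hX Y hY
    | mul U' W' P hU' hW' hz hP hp ih1 ih2 =>
      exact (hPR I L G hI U' W' (hU'.fam hS) (hW'.fam hS) hz).2.2.1 P X hp ih1 ih2
  exact key W (fun Y hY => zsymm (key Y (fun Z hZS => hZ Z hZS Y hY) (hS Y hY) W hW))
    (hW.fam hS) U hU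

/-- a product chosen. -/
def mulF (G : GLd I L) (U W : I → I → L) : I → I → L :=
  open scoped Classical in
  if h : ∃ P : I → I → L, IsFam G P ∧ PrR U W P then h.choose else 0

theorem exists_third (hI : 5 ≤ Fintype.card I) (a c : I) : ∃ b : I, a ≠ b ∧ b ≠ c := by
  by_contra hcon
  push Not at hcon
  have h1 : (Finset.univ : Finset I) ⊆ {a, c} := by
    intro b _
    by_cases h : a = b
    · subst h; simp
    · have := hcon b h; subst this; simp
  have h2 := Finset.card_le_card h1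
  have h3 : ({a, c} : Finset I).card ≤ 2 := Finset.card_le_two
  rw [Finset.card_univ] at h2
  omega

theorem prod_unique (hI : 5 ≤ Fintype.card I) {G : GLd I L} {U W P P' : I → I → L}
    (hP : IsFam G P) (hP' : IsFam G P') (h : PrR U W P) (h' : PrR U W P') : P = P' := by
  funext a c
  by_cases hac : a = c
  · subst hac; rw [hP.diag, hP'.diag]
  · obtain ⟨b, hab, hbc⟩ := exists_third hI a c
    rw [← h a b c hab hbc hac, ← h' a b c hab hbc hac]

theorem fam_ext (hI : 5 ≤ Fintype.card I) {G : GLd I L} {P P' : I → I → L}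
    (hP : IsFam G P) (hP' : IsFam G P') (h : ∀ a c, a ≠ c → P a c = P' a c) : P = P' := by
  funext a c
  by_cases hac : a = c
  · subst hac; rw [hP.diag, hP'.diag]
  · exact h a c hac

section main

variable (hPR : S_PR) (hI : 5 ≤ Fintype.card I) {G : GLd I L} {S : Set (I → I → L)}
    (hS : ∀ X ∈ S, IsFam G X) (hZ : ∀ X ∈ S, ∀ Y ∈ S, ZRel X Y)

include hPR hI hS hZ

theorem mulF_spec {U W : I → I → L} (hU : KP G S U) (hW : KP G S W) :
    IsFam G (mulF G U W) ∧ PrR U W (mulF G U W) ∧ KP G S (mulF G U W) := by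
  have hz := hU.zrel hPR hI hS hZ hW
  have hex := (hPR I L G hI U W (hU.fam hS) (hW.fam hS) hz).1
  have hex' : ∃ P : I → I → L, IsFam G P ∧ PrR U W P := hex
  have h1 : mulF G U W = hex'.choose := dif_pos hex'
  have h2 := hex'.choose_spec
  rw [h1]
  exact ⟨h2.1, h2.2, KP.mul U W _ hU hW hz h2.1 h2.2⟩

theorem mulF_eq {U W P : I → I → L} (hU : KP G S U) (hW : KP G S W) (hP : IsFam G P)
    (h : PrR U W P) : mulF G U W = P :=
  prod_unique hI (mulF_spec hPR hI hS hZ hU hW).1 hP (mulF_spec hPR hI hS hZ hU hW).2.1 h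

theorem mulF_one_left {U : I → I → L} (hU : KP G S U) : mulF G (oneF G) U = U := by
  refine mulF_eq hPR hI hS hZ KP.one hU (hU.fam hS) ?_
  intro a b c hab hbc hac
  rw [oneF_ne G hab, (hU.fam hS).rel a b b c hab hbc fun h => hac h.2, if_pos rfl, if_neg hac,
    sub_zero]

theorem mulF_one_right {U : I → I → L} (hU : KP G S U) : mulF G U (oneF G) = U := by
  refine mulF_eq hPR hI hS hZ hU KP.one (hU.fam hS) ?_
  intro a b c hab hbc hac
  rw [oneF_ne G hbc, ← lie_skew, (hU.fam hS).rel b c a b hbc hab fun h => hac h.1.symm,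
    if_neg (Ne.symm hac), if_pos rfl, zero_sub, neg_neg]

theorem mulF_assoc {U W X : I → I → L} (hU : KP G S U) (hW : KP G S W) (hX : KP G S X) :
    mulF G (mulF G U W) X = mulF G U (mulF G W X) := by
  obtain ⟨f1, p1, k1⟩ := mulF_spec hPR hI hS hZ hU hW
  obtain ⟨f2, p2, k2⟩ := mulF_spec hPR hI hS hZ hW hX
  obtain ⟨f3, p3, k3⟩ := mulF_spec hPR hI hS hZ k1 hX
  obtain ⟨f4, p4, k4⟩ := mulF_spec hPR hI hS hZ hU k2
  refine fam_ext hI f3 f4 ?_
  exact (hPR I L G hI U W (hU.fam hS) (hW.fam hS) (hU.zrel hPR hI hS hZ hW)).2.2.2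
    (mulF G U W) X (mulF G W X) _ _ (hX.fam hS) (hU.zrel hPR hI hS hZ hX)
    (hW.zrel hPR hI hS hZ hX) p1 p2 p3 p4

theorem mulF_comm (hC : ∀ X ∈ S, ∀ Y ∈ S, ∀ a b c, a ≠ b → b ≠ c → a ≠ c →
      ⁅X a b, Y b c⁆ = ⁅Y a b, X b c⁆) {U W : I → I → L} (hU : KP G S U) (hW : KP G S W) :
    mulF G U W = mulF G W U := by
  have key : ∀ U, KP G S U → (∀ Y ∈ S, mulF G Y U = mulF G U Y) → ∀ W, KP G S W →
      mulF G W U = mulF G U W := by
    intro U hU hYU W hW
    induction hW with
    | one => rw [mulF_one_left hPR hI hS hZ hU, mulF_one_right hPR hI hS hZ hU]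
    | base Y hY => exact hYU Y hY
    | mul W1 W2 P h1 h2 hz hP hp ih1 ih2 =>
      have e : mulF G W1 W2 = P := mulF_eq hPR hI hS hZ h1 h2 hP hp
      have a1 := mulF_assoc hPR hI hS hZ h1 h2 hU
      have a2 := mulF_assoc hPR hI hS hZ h1 hU h2
      have a3 := mulF_assoc hPR hI hS hZ hU h1 h2
      rw [← e, a1, ih2, ← a2, ih1, a3]
  refine (key U hU (fun Y hY => ?_) W hW).symm
  refine (key Y (KP.base Y hY) (fun X hX => ?_) U hU).symm
  have kX : KP G S X := KP.base X hX
  have kY : KP G S Y := KP.base Y hY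
  obtain ⟨f1, p1, k1⟩ := mulF_spec hPR hI hS hZ kY kX
  refine mulF_eq hPR hI hS hZ kX kY f1 ?_
  intro a b c hab hbc hac
  rw [hC X hX Y hY a b c hab hbc hac, p1 a b c hab hbc hac]

end main

theorem sKK (hPR : S_PR) : S_KK := by
  intro I _ _ L _ _ G hI S hS hZ hC
  refine ⟨{U : I → I → L // KP G S U},
    { mul := fun U W => ⟨mulF G U.1 W.1, (mulF_spec hPR hI hS hZ U.2 W.2).2.2⟩
      mul_assoc := fun U W X => Subtype.ext (mulF_assoc hPR hI hS hZ U.2 W.2 X.2)
      one := ⟨oneF G, KP.one⟩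
      one_mul := fun U => Subtype.ext (mulF_one_left hPR hI hS hZ U.2)
      mul_one := fun U => Subtype.ext (mulF_one_right hPR hI hS hZ U.2)
      mul_comm := fun U W => Subtype.ext (mulF_comm hPR hI hS hZ hC U.2 W.2) },
    fun U => U.1, Subtype.val_injective, fun U => U.2.fam hS,
    fun U W => U.2.zrel hPR hI hS hZ W.2, ?_, ?_, ?_⟩
  · intro U W a b c hab hbc hac
    exact (mulF_spec hPR hI hS hZ U.2 W.2).2.1 a b c hab hbc hac
  · intro a b hab
    exact oneF_ne G hab
  · intro X hX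
    exact ⟨⟨X, KP.base X hX⟩, rfl⟩

end

end Pool.Agent.Helper57.SQ
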