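import Pool.Agent.Helper4.SQ.GoalsR

/-!
Project SQ (MP_bb32d1_al), packet SCB: the braid relation of the crossing `Sc`.
-/

set_option autoImplicit false
set_option linter.unusedSectionVars false

namespace Pool.Agent.Helper57.SQ

noncomputable section

open Matrix Pool.Agent.Helper19.SQ Pool.Agent.Helper34.SQ Pool.Agent.Helper41.SQ
  Pool.Agent.Helper4.SQ

theorem r12_mulVec (N : ℕ) (q : ℂ) (f : Fin (N + 1) × (Fin (N + 1) × Fin (N + 1)) → ℂ)
    (a b c : Fin (N + 1)) :
    (r12 (Scm N q) *ᵥ f) (a, (b, c))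
      = (if a = b then q else 1) * f (b, (a, c))
        + (if a < b then (q - q⁻¹) * f (a, (b, c)) else 0) := by
  have key : ∀ y : Fin (N + 1) × (Fin (N + 1) × Fin (N + 1)),
      r12 (Scm N q) (a, (b, c)) y * f y
        = (if y = (b, (a, c)) then (if a = b then q else 1) * f y else 0)
          + (if y = (a, (b, c)) then (if a < b then (q - q⁻¹) * f y else 0) else 0) := by
    rintro ⟨y1, y2, y3⟩
    simp only [r12, Scm, Matrix.of_apply, Prod.mk.injEq]
    by_cases h3 : c = y3
    · subst h3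
      simp only [if_true, and_true, add_mul]
      congr 1
      · by_cases h : a = y2 ∧ b = y1
        · obtain ⟨rfl, rfl⟩ := h
          simp only [and_self, if_true]
          by_cases hab : a = b
          · subst hab; simp
          · rw [if_neg hab, if_neg fun h => hab h.symm]
        · rw [if_neg h, if_neg fun h' => h ⟨h'.2.symm, h'.1.symm⟩, zero_mul]
      · by_cases h : a = y1 ∧ b = y2
        · obtain ⟨rfl, rfl⟩ := h
          by_cases hab : a < b
          · simp [hab]
          · simp [hab]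
        · have h' : ¬ (y1 = a ∧ y2 = b) := fun h' => h ⟨h'.1.symm, h'.2.symm⟩
          simp [h, h']
    · have h3' : ¬ (y3 = c) := fun h => h3 h.symm
      simp [h3, h3']
  rw [Matrix.mulVec, dotProduct, Finset.sum_congr rfl fun y _ => key y, Finset.sum_add_distrib,
    Finset.sum_ite_eq' , Finset.sum_ite_eq']
  simp

theorem r23_mulVec (N : ℕ) (q : ℂ) (f : Fin (N + 1) × (Fin (N + 1) × Fin (N + 1)) → ℂ)
    (a b c : Fin (N + 1)) :
    (r23 (Scm N q) *ᵥ f) (a, (b, c))
      = (if b = c then q else 1) * f (a, (c, b))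
        + (if b < c then (q - q⁻¹) * f (a, (b, c)) else 0) := by
  have key : ∀ y : Fin (N + 1) × (Fin (N + 1) × Fin (N + 1)),
      r23 (Scm N q) (a, (b, c)) y * f y
        = (if y = (a, (c, b)) then (if b = c then q else 1) * f y else 0)
          + (if y = (a, (b, c)) then (if b < c then (q - q⁻¹) * f y else 0) else 0) := by
    rintro ⟨y1, y2, y3⟩
    simp only [r23, Scm, Matrix.of_apply, Prod.mk.injEq]
    by_cases h3 : a = y1
    · subst h3
      simp only [if_true, true_and, add_mul]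
      congr 1
      · by_cases h : b = y3 ∧ c = y2
        · obtain ⟨rfl, rfl⟩ := h
          simp only [and_self, if_true]
          by_cases hab : b = c
          · subst hab; simp
          · rw [if_neg hab, if_neg fun h => hab h.symm]
        · rw [if_neg h, if_neg fun h' => h ⟨h'.2.symm, h'.1.symm⟩, zero_mul]
      · by_cases h : b = y2 ∧ c = y3
        · obtain ⟨rfl, rfl⟩ := h
          by_cases hab : b < c
          · simp [hab]
          · simp [hab]
        · have h' : ¬ (y2 = b ∧ y3 = c) := fun h' => h ⟨h'.1.symm, h'.2.symm⟩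
          simp [h, h']
    · have h3' : ¬ (y1 = a) := fun h => h3 h.symm
      simp [h3, h3']
  rw [Matrix.mulVec, dotProduct, Finset.sum_congr rfl fun y _ => key y, Finset.sum_add_distrib,
    Finset.sum_ite_eq' , Finset.sum_ite_eq']
  simp

theorem cmp {M : ℕ} (a b : Fin M) :
    (a < b ∧ ¬ b < a ∧ a ≠ b ∧ b ≠ a) ∨ a = b ∨ (b < a ∧ ¬ a < b ∧ a ≠ b ∧ b ≠ a) := by
  rcases lt_trichotomy a b with h | h | h
  · exact Or.inl ⟨h, lt_asymm h, ne_of_lt h, (ne_of_lt h).symm⟩
  · exact Or.inr (Or.inl h)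
  · exact Or.inr (Or.inr ⟨h, lt_asymm h, (ne_of_lt h).symm, ne_of_lt h⟩)

theorem braid_mulVec (N : ℕ) (q : ℂ) (hq : q ≠ 0)
    (f : Fin (N + 1) × (Fin (N + 1) × Fin (N + 1)) → ℂ) (a b c : Fin (N + 1)) :
    (r12 (Scm N q) *ᵥ (r23 (Scm N q) *ᵥ (r12 (Scm N q) *ᵥ f))) (a, (b, c))
      = (r23 (Scm N q) *ᵥ (r12 (Scm N q) *ᵥ (r23 (Scm N q) *ᵥ f))) (a, (b, c)) := by
  simp only [r12_mulVec, r23_mulVec]
  have hqq : q * q⁻¹ = 1 := mul_inv_cancel₀ hq
  clear hqq
  rcases cmp a b with ⟨h1, h2, h3, h4⟩ | h1 | ⟨h1, h2, h3, h4⟩ <;>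
    rcases cmp b c with ⟨h5, h6, h7, h8⟩ | h5 | ⟨h5, h6, h7, h8⟩ <;>
    rcases cmp a c with ⟨h9, h10, h11, h12⟩ | h9 | ⟨h9, h10, h11, h12⟩
  all_goals first
    | (exfalso; simp only [Fin.lt_def, Fin.ext_iff, ne_eq, not_lt] at *; omega)
    | skip
  all_goals (try subst h1)
  all_goals (try subst h5)
  all_goals (try subst h9)
  all_goals simp only [*, if_true, if_false, lt_irrefl]
  all_goals (try field_simp)
  all_goals (try ring)

theorem sSCB : S_SCB := by
  intro N q hq
  ext x y
  obtain ⟨a, b, c⟩ := x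
  have h := braid_mulVec N q hq (Pi.single y 1) a b c
  rw [Matrix.mulVec_mulVec, Matrix.mulVec_mulVec, Matrix.mulVec_mulVec, Matrix.mulVec_mulVec,
    Matrix.mulVec_single_one, Matrix.mulVec_single_one] at h
  simpa [Matrix.mul_assoc] using h

end

end Pool.Agent.Helper57.SQ
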